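import Mathlib
import Pool.Agent.Helper92.PO.Stmts

/-!
po_mods TPOL: polynomials of the padding length.
-/

set_option autoImplicit false

namespace Pool.Agent.Helper92.PO

theorem tpol_eval (P : Polynomial ℕ) (y : ℕ) (hy : 2 ≤ y) :
    P.eval y ≤ y ^ (P.eval 1 + P.natDegree) := by
  have h1 : P.eval y ≤ P.eval 1 * y ^ P.natDegree := by
    rw [Polynomial.eval_eq_sum_range, Polynomial.eval_eq_sum_range, Finset.sum_mul]
    refine Finset.sum_le_sum fun i hi => ?_
    rw [one_pow, mul_one]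
    have h2 : i ≤ P.natDegree := Nat.lt_succ_iff.1 (Finset.mem_range.1 hi)
    exact Nat.mul_le_mul_left _ (Nat.pow_le_pow_right (by omega) h2)
  have h3 : P.eval 1 ≤ y ^ P.eval 1 :=
    (Nat.lt_two_pow_self).le.trans (Nat.pow_le_pow_left hy _)
  rw [pow_add]
  exact h1.trans (Nat.mul_le_mul_right _ h3)

theorem st_TPOL : ST_TPOL := by
  intro P
  refine ⟨20 * (P.eval 1 + P.natDegree), fun n => ?_⟩
  obtain ⟨x, hx⟩ : ∃ x, x = bd n := ⟨_, rfl⟩
  have hx1 : 1024 ≤ x := by
    rw [hx]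
    unfold bd
    calc 1024 = 2 ^ 10 := by norm_num
      _ ≤ (n + 2) ^ 10 := Nat.pow_le_pow_left (by omega) _
      _ ≤ (n + 2) ^ (10 * (Nat.sqrt n + 1)) := Nat.pow_le_pow_right (by omega) (by omega)
  rw [← hx]
  have h1 : 20 * x + 100 ≤ x ^ 2 := by nlinarith
  calc P.eval (20 * x + 100) ≤ (20 * x + 100) ^ (P.eval 1 + P.natDegree) :=
        tpol_eval P _ (by omega)
    _ ≤ (x ^ 2) ^ (P.eval 1 + P.natDegree) := Nat.pow_le_pow_left h1 _
    _ = (n + 2) ^ (20 * (P.eval 1 + P.natDegree) * (Nat.sqrt n + 1)) := by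
        rw [hx]
        unfold bd
        rw [← pow_mul, ← pow_mul]
        congr 1
        ring

end Pool.Agent.Helper92.PO
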